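import Pool.Agent.GBD.Main

set_option autoImplicit false
set_option linter.unusedSectionVars false

namespace Pool.Agent.GBD

open Finset

variable {ι α : Type} [Fintype ι] [DecidableEq ι] [DecidableEq α]

/-- From entropy to LYM (Gibbs' variational principle). -/
theorem lym_of_entropy (w : ι → ℝ)
    (H : ∀ μ : ι → ℝ, (∀ i, 0 < μ i) → ∑ i, μ i = 1 →
      ∑ i, μ i * Real.log (1 / μ i) ≤ ∑ i, μ i * w i) :
    ∑ i, Real.exp (-(w i)) ≤ 1 := by
  rcases isEmpty_or_nonempty ι with hι | hι
  · simp
  set Z := ∑ i, Real.exp (-(w i)) with hZ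
  have hZ0 : 0 < Z := Finset.sum_pos (fun i _ => Real.exp_pos _) Finset.univ_nonempty
  have hμ : ∀ i, 0 < Real.exp (-(w i)) / Z := fun i => by positivity
  have hμ1 : ∑ i, Real.exp (-(w i)) / Z = 1 := by
    rw [← Finset.sum_div, ← hZ, div_self hZ0.ne']
  have h1 := H _ hμ hμ1
  have h2 : ∀ i, Real.exp (-(w i)) / Z * Real.log (1 / (Real.exp (-(w i)) / Z))
      = Real.exp (-(w i)) / Z * Real.log Z + Real.exp (-(w i)) / Z * w i := by
    intro i
    rw [one_div_div, Real.log_div hZ0.ne' (Real.exp_pos _).ne', Real.log_exp]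
    ring
  rw [Finset.sum_congr rfl (fun i _ => h2 i), Finset.sum_add_distrib, ← Finset.sum_mul, hμ1,
    one_mul] at h1
  have h3 : Real.log Z ≤ 0 := by linarith
  exact (Real.log_nonpos_iff hZ0.le).1 h3

lemma OneCross.swap {A B : ι → Finset α} (h : OneCross A B) : OneCross B A :=
  ⟨fun i => by rw [Finset.inter_comm]; exact h.1 i,
    fun i j hij => by rw [Finset.inter_comm]; exact h.2 j i (Ne.symm hij)⟩

/-- the coefficient of `|A_i|` -/
noncomputable def ca (z : ℝ) : ℝ := Real.log (1 + z) - z / (z + 2)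

/-- the coefficient of `|B_i|` -/
noncomputable def cb (z : ℝ) : ℝ := (1 + z) / (z * (z + 2))

lemma ca_nonneg (z : ℝ) (hz : 0 < z) : 0 ≤ ca z := by
  unfold ca
  have h1 : 1 - (1 + z)⁻¹ ≤ Real.log (1 + z) := Real.one_sub_inv_le_log_of_pos (by linarith)
  have h2 : z / (z + 2) ≤ 1 - (1 + z)⁻¹ := by
    have h3 : 1 - (1 + z)⁻¹ - z / (z + 2) = z / ((1 + z) * (z + 2)) := by
      field_simp
      ring
    have h4 : 0 ≤ z / ((1 + z) * (z + 2)) := by positivity
    linarith
  linarith

lemma cb_nonneg (z : ℝ) (hz : 0 < z) : 0 ≤ cb z := by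
  unfold cb
  positivity

theorem lym_z (A B : ι → Finset α) (h : OneCross A B) (z : ℝ) (hz : 0 < z) :
    ∑ i, Real.exp (-(ca z * (A i).card + cb z * (B i).card)) ≤ 1 :=
  lym A B h (ca z) (cb z) (cb_nonneg z hz) (scalar z hz)

theorem card_le (A B : ι → Finset α) (h : OneCross A B) (a b : ℕ) (z : ℝ) (hz : 0 < z)
    (hab : (a : ℝ) * z ^ 2 = b * (1 + z)) (hA : ∀ i, (A i).card ≤ a) (hB : ∀ i, (B i).card ≤ b) :
    (Fintype.card ι : ℝ) ≤ (1 + z) ^ a := by
  have h1 := lym_z A B h z hz
  have h2 : ∀ i : ι, Real.exp (-(ca z * a + cb z * b)) ≤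
      Real.exp (-(ca z * (A i).card + cb z * (B i).card)) := by
    intro i
    apply Real.exp_le_exp.2
    have h3 : ca z * (A i).card ≤ ca z * a :=
      mul_le_mul_of_nonneg_left (by exact_mod_cast hA i) (ca_nonneg z hz)
    have h4 : cb z * (B i).card ≤ cb z * b :=
      mul_le_mul_of_nonneg_left (by exact_mod_cast hB i) (cb_nonneg z hz)
    linarith
  have h5 : (Fintype.card ι : ℝ) * Real.exp (-(ca z * a + cb z * b)) ≤ 1 := by
    refine le_trans ?_ h1
    rw [← nsmul_eq_mul, ← Finset.card_univ, ← Finset.sum_const]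
    exact Finset.sum_le_sum fun i _ => h2 i
  have h6 : ca z * a + cb z * b = a * Real.log (1 + z) := by
    have h7 : cb z * b = z / (z + 2) * a := by
      unfold cb
      have hz2 : z + 2 ≠ 0 := by positivity
      field_simp
      linarith
    rw [h7]
    unfold ca
    ring
  rw [h6, Real.exp_neg, ← Real.log_pow, Real.exp_log (by positivity),
    mul_inv_le_iff₀ (by positivity), one_mul] at h5
  exact h5

lemma golden_ca_add_cb : ca Real.goldenRatio + cb Real.goldenRatio =
    2 * Real.log Real.goldenRatio := by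
  unfold ca cb
  have hφ := Real.goldenRatio_pos
  have h1 : 1 + Real.goldenRatio = Real.goldenRatio ^ 2 := by rw [Real.goldenRatio_sq]; ring
  rw [h1, Real.log_pow]
  have h2 : Real.goldenRatio ^ 2 / (Real.goldenRatio * (Real.goldenRatio + 2))
      = Real.goldenRatio / (Real.goldenRatio + 2) := by
    field_simp
  rw [h2]
  push_cast
  ring

/-- The symmetric LYM inequality. -/
theorem lym_golden (A B : ι → Finset α) (h : OneCross A B) :
    ∑ i, (Real.goldenRatio ^ ((A i).card + (B i).card))⁻¹ ≤ 1 := by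
  have hφ := Real.goldenRatio_pos
  have h1 : ∀ i, (Real.goldenRatio ^ ((A i).card + (B i).card))⁻¹
      = Real.exp (-(Real.log Real.goldenRatio * ((A i).card + (B i).card))) := by
    intro i
    rw [Real.exp_neg]
    congr 1
    rw [mul_comm, ← Nat.cast_add, ← Real.log_pow, Real.exp_log (by positivity)]
  rw [Finset.sum_congr rfl (fun i _ => h1 i)]
  apply lym_of_entropy
  intro μ hμ hμ1
  have h2 := entropy_le A B h _ _ (cb_nonneg _ hφ) (scalar _ hφ) μ hμ hμ1
  have h3 := entropy_le B A h.swap _ _ (cb_nonneg _ hφ) (scalar _ hφ) μ hμ hμ1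
  have h4 : ∑ i, μ i * (Real.log Real.goldenRatio * ((A i).card + (B i).card))
      = (∑ i, μ i * ((Real.log (1 + Real.goldenRatio) -
          Real.goldenRatio / (Real.goldenRatio + 2)) * (A i).card +
          cb Real.goldenRatio * (B i).card) +
        ∑ i, μ i * ((Real.log (1 + Real.goldenRatio) -
          Real.goldenRatio / (Real.goldenRatio + 2)) * (B i).card +
          cb Real.goldenRatio * (A i).card)) / 2 := by
    rw [← Finset.sum_add_distrib, Finset.sum_div]
    apply Finset.sum_congr rfl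
    intro i _
    have h5 := golden_ca_add_cb
    have h6 : Real.log Real.goldenRatio = (ca Real.goldenRatio + cb Real.goldenRatio) / 2 := by
      linarith
    rw [h6]
    unfold ca
    ring
  rw [h4]
  linarith

end Pool.Agent.GBD
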