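import Pool.Agent.GBD.Rank

set_option autoImplicit false

namespace Pool.Agent.GBD

open Finset

/-- one-cross-intersecting systems -/
def OneCross {ι α : Type} [DecidableEq α] (A B : ι → Finset α) : Prop :=
  (∀ i, A i ∩ B i = ∅) ∧ ∀ i j, i ≠ j → (A i ∩ B j).card = 1

/-- The one-index inequality (adding the elements in increasing order of `q`). -/
lemma one_index {α : Type} [DecidableEq α] (q : α → ℝ) (hq : ∀ x, 0 ≤ q x) (c e : ℝ)
    (hce : ∀ y : ℝ, 0 ≤ y → Real.log (1 + y) ≤ c + e * (y ^ 2 / (1 + y)))
    (m : ℝ) (hm : 0 < m) (S : Finset α) :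
    ∃ d : α → ℝ, (∀ ε : ℝ, 1 / (m + ∑ x ∈ S, if q x < ε then q x else 0)
        = 1 / (m + ∑ x ∈ S, q x) + ∑ x ∈ S, if q x < ε then 0 else d x) ∧
      Real.log ((m + ∑ x ∈ S, q x) / m) ≤ c * S.card + e * ∑ x ∈ S, d x * q x := by
  induction S using Finset.induction_on_max_value q with
  | empty =>
    refine ⟨fun _ => 0, fun ε => by simp, ?_⟩
    simp [hm.ne']
  | insert a s ha hmax ih =>
    obtain ⟨d, hd1, hd2⟩ := ih
    have hs : 0 ≤ ∑ x ∈ s, q x := Finset.sum_nonneg fun x _ => hq x
    set E := m + ∑ x ∈ s, q x with hE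
    have hE0 : 0 < E := by positivity
    have ha0 : 0 ≤ q a := hq a
    refine ⟨Function.update d a (1 / E - 1 / (E + q a)), ?_, ?_⟩
    · intro ε
      rw [Finset.sum_insert ha, Finset.sum_insert ha, Finset.sum_insert ha]
      have h1 : ∑ x ∈ s, (if q x < ε then 0 else Function.update d a (1 / E - 1 / (E + q a)) x)
          = ∑ x ∈ s, if q x < ε then 0 else d x := by
        apply Finset.sum_congr rfl
        intro x hx
        have hxa : x ≠ a := fun h => ha (h ▸ hx)
        rw [Function.update_of_ne hxa]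
      rw [h1, Function.update_self]
      have h2 := hd1 ε
      by_cases hε : q a < ε
      · rw [if_pos hε, if_pos hε]
        have h3 : ∑ x ∈ s, (if q x < ε then q x else 0) = ∑ x ∈ s, q x := by
          apply Finset.sum_congr rfl
          intro x hx
          rw [if_pos (lt_of_le_of_lt (hmax x hx) hε)]
        have h4 : ∑ x ∈ s, (if q x < ε then 0 else d x) = 0 := by
          apply Finset.sum_eq_zero
          intro x hx
          rw [if_pos (lt_of_le_of_lt (hmax x hx) hε)]
        rw [h3, h4]
        simp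
      · rw [if_neg hε, if_neg hε]
        have h5 : m + (q a + ∑ x ∈ s, q x) = E + q a := by rw [hE]; ring
        rw [zero_add, h2, h5]
        ring
    · rw [Finset.sum_insert ha, Finset.sum_insert ha, Finset.card_insert_of_notMem ha,
        Function.update_self]
      have h1 : ∑ x ∈ s, Function.update d a (1 / E - 1 / (E + q a)) x * q x
          = ∑ x ∈ s, d x * q x := by
        apply Finset.sum_congr rfl
        intro x hx
        have hxa : x ≠ a := fun h => ha (h ▸ hx)
        rw [Function.update_of_ne hxa]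
      rw [h1]
      have h2 : (m + (q a + ∑ x ∈ s, q x)) / m = (1 + q a / E) * (E / m) := by
        have : m + (q a + ∑ x ∈ s, q x) = E + q a := by rw [hE]; ring
        rw [this]
        field_simp
      rw [h2, Real.log_mul (by positivity) (by positivity)]
      have h3 := hce (q a / E) (by positivity)
      have h4 : (q a / E) ^ 2 / (1 + q a / E) = (1 / E - 1 / (E + q a)) * q a := by
        field_simp
        ring
      rw [h4] at h3
      push_cast
      nlinarith [h3, hd2]

/-- Layer cake for finitely many elements: if `∑ c x 1[ε ≤ q x] ≤ 0` for all `ε > 0`, then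
`∑ c x q x ≤ 0`. -/
lemma layer {α : Type} [DecidableEq α] (c : α → ℝ) (n : ℕ) :
    ∀ (S : Finset α), S.card = n → ∀ q : α → ℝ, (∀ x ∈ S, 0 ≤ q x) →
    (∀ ε : ℝ, 0 < ε → ∑ x ∈ S, (if q x < ε then 0 else c x) ≤ 0) →
    ∑ x ∈ S, c x * q x ≤ 0 := by
  induction n with
  | zero =>
    intro S hS q _ _
    rw [Finset.card_eq_zero.1 hS]
    simp
  | succ n ih =>
    intro S hS q hq hc
    have hne : S.Nonempty := Finset.card_pos.1 (by omega)
    obtain ⟨a, haS, hmin⟩ := S.exists_min_image q hne
    have hcard : (S.erase a).card = n := by rw [Finset.card_erase_of_mem haS]; omega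
    have h1 := ih (S.erase a) hcard (fun x => q x - q a)
      (fun x hx => sub_nonneg.2 (hmin x (Finset.mem_of_mem_erase hx))) (by
        intro ε hε
        have h2 := hc (ε + q a) (by linarith [hq a haS])
        rw [← Finset.add_sum_erase S _ haS, if_pos (by linarith), zero_add] at h2
        refine le_trans (le_of_eq ?_) h2
        apply Finset.sum_congr rfl
        intro x _
        by_cases hx : q x < ε + q a
        · rw [if_pos hx, if_pos (by linarith)]
        · rw [if_neg hx, if_neg (by intro h; exact hx (by linarith))])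
    have h3 : ∑ x ∈ S, c x * (q x - q a) ≤ 0 := by
      rw [← Finset.add_sum_erase S _ haS, sub_self, mul_zero, zero_add]
      exact h1
    have h4 : q a * ∑ x ∈ S, c x ≤ 0 := by
      rcases (hq a haS).eq_or_lt with h0 | h0
      · rw [← h0]; simp
      · have h5 := hc (q a) h0
        have h6 : ∑ x ∈ S, (if q x < q a then 0 else c x) = ∑ x ∈ S, c x := by
          apply Finset.sum_congr rfl
          intro x hx
          rw [if_neg (not_lt.2 (hmin x hx))]
        rw [h6] at h5
        exact mul_nonpos_of_nonneg_of_nonpos h0.le h5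
    have h7 : ∑ x ∈ S, c x * q x = ∑ x ∈ S, c x * (q x - q a) + q a * ∑ x ∈ S, c x := by
      rw [Finset.mul_sum, ← Finset.sum_add_distrib]
      apply Finset.sum_congr rfl
      intro x _
      ring
    rw [h7]
    linarith

/-- The scalar inequality. -/
lemma scalar (z : ℝ) (hz : 0 < z) (y : ℝ) (hy : 0 ≤ y) :
    Real.log (1 + y) ≤ (Real.log (1 + z) - z / (z + 2)) +
      ((1 + z) / (z * (z + 2))) * (y ^ 2 / (1 + y)) := by
  have h1 : (0 : ℝ) < 1 + y := by linarith
  have h2 : (0 : ℝ) < 1 + z := by linarith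
  have h3 : Real.log (1 + y) = Real.log (1 + z) + Real.log ((1 + y) / (1 + z)) := by
    rw [Real.log_div h1.ne' h2.ne']; ring
  have h4 : Real.log ((1 + y) / (1 + z)) ≤ (1 + y) / (1 + z) - 1 :=
    Real.log_le_sub_one_of_pos (by positivity)
  have h5 : (1 + y) / (1 + z) - 1 ≤ - (z / (z + 2)) +
      ((1 + z) / (z * (z + 2))) * (y ^ 2 / (1 + y)) := by
    have h6 : (- (z / (z + 2)) + ((1 + z) / (z * (z + 2))) * (y ^ 2 / (1 + y)))
        - ((1 + y) / (1 + z) - 1) = (y - z) ^ 2 / (z * (z + 2) * (1 + y) * (1 + z)) := by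
      field_simp
      ring
    have h7 : 0 ≤ (y - z) ^ 2 / (z * (z + 2) * (1 + y) * (1 + z)) := by positivity
    linarith
  linarith

variable {ι α : Type} [Fintype ι] [DecidableEq α]

/-- the load of the element `x` -/
noncomputable def load (B : ι → Finset α) (μ : ι → ℝ) (x : α) : ℝ :=
  ∑ i, if x ∈ B i then μ i else 0

lemma load_nonneg (B : ι → Finset α) (μ : ι → ℝ) (hμ : ∀ i, 0 < μ i) (x : α) :
    0 ≤ load B μ x := by
  apply Finset.sum_nonneg
  intro i _
  split_ifs
  · exact (hμ i).le
  · exact le_rfl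

omit [Fintype ι] in
lemma sum_mem [DecidableEq ι] (A B : ι → Finset α) (h : OneCross A B) (j i : ι) :
    ∑ x ∈ A j, (if x ∈ B i then (1 : ℝ) else 0) = if i = j then 0 else 1 := by
  rw [← Finset.sum_filter, Finset.sum_const, nsmul_eq_mul, mul_one]
  have h1 : (A j).filter (fun x => x ∈ B i) = A j ∩ B i := by
    ext x; simp [Finset.mem_inter]
  rw [h1]
  by_cases hij : i = j
  · subst hij
    rw [h.1, if_pos rfl]; simp
  · rw [h.2 j i (Ne.symm hij), if_neg hij]; simp

/-- For every `ε`: the sum of `μ j / σ j (ε)` is at most one plus the number of big elements. -/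
lemma layer_rank [DecidableEq ι] (A B : ι → Finset α) (h : OneCross A B) (μ : ι → ℝ)
    (hμ : ∀ i, 0 < μ i) (Ω : Finset α) (hΩ : ∀ i, A i ⊆ Ω) (ε : ℝ) :
    ∑ j, μ j * (1 / (μ j + ∑ x ∈ A j, if load B μ x < ε then load B μ x else 0)) ≤
      1 + ∑ x ∈ Ω, if load B μ x < ε then (0 : ℝ) else 1 := by
  classical
  let G : Finset α := Ω.filter (fun x => ¬ load B μ x < ε)
  let D : ι → Finset α := fun j => (A j).filter (fun x => ¬ load B μ x < ε)
  let t : α → ι → ℝ := fun x i => if x ∈ B i then 1 else 0
  let z : ι → ι → ℝ := fun j i => 1 - ∑ x ∈ D j, t x i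
  have hsplit : ∀ j i, ∑ x ∈ (A j).filter (fun x => load B μ x < ε), t x i + ∑ x ∈ D j, t x i
      = if i = j then 0 else 1 := by
    intro j i
    rw [Finset.sum_filter_add_sum_filter_not, sum_mem A B h j i]
  have hnn : ∀ (F : Finset α) (i : ι), ∃ k : ℕ, ∑ x ∈ F, t x i = k := by
    intro F i
    refine ⟨(F.filter (fun x => x ∈ B i)).card, ?_⟩
    simp only [t]
    rw [← Finset.sum_filter, Finset.sum_const, nsmul_eq_mul, mul_one]
  have hz01 : ∀ j i, z j i = 0 ∨ z j i = 1 := by
    intro j i
    obtain ⟨k1, hk1⟩ := hnn ((A j).filter (fun x => load B μ x < ε)) i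
    obtain ⟨k2, hk2⟩ := hnn (D j) i
    have h1 := hsplit j i
    rw [hk1, hk2] at h1
    simp only [z, hk2]
    by_cases hij : i = j
    · rw [if_pos hij] at h1
      right
      have h2 : ((k1 + k2 : ℕ) : ℝ) = 0 := by push_cast; exact h1
      have h3 : k1 + k2 = 0 := by exact_mod_cast h2
      have h4 : k2 = 0 := by omega
      rw [h4]; simp
    · rw [if_neg hij] at h1
      have h2 : ((k1 + k2 : ℕ) : ℝ) = 1 := by push_cast; exact h1
      have h3 : k1 + k2 = 1 := by exact_mod_cast h2
      have h4 : k2 = 0 ∨ k2 = 1 := by omega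
      rcases h4 with h4 | h4
      · right; rw [h4]; simp
      · left; rw [h4]; simp
  have hzd : ∀ j, z j j = 1 := by
    intro j
    have h1 : ∑ x ∈ D j, t x j = 0 := by
      apply Finset.sum_eq_zero
      intro x hx
      have hxA : x ∈ A j := (Finset.mem_filter.1 hx).1
      have : x ∉ B j := by
        intro hxB
        have h2 : x ∈ A j ∩ B j := Finset.mem_inter.2 ⟨hxA, hxB⟩
        rw [h.1 j] at h2
        simp at h2
      simp [t, this]
    simp [z, h1]
  have hw := weighted μ hμ G t D
    (fun j x hx => Finset.mem_filter.2 ⟨hΩ j (Finset.mem_filter.1 hx).1, (Finset.mem_filter.1 hx).2⟩)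
    z (fun j i => rfl) hz01 hzd
  have hG : (G.card : ℝ) = ∑ x ∈ Ω, if load B μ x < ε then (0 : ℝ) else 1 := by
    rw [Finset.card_filter]
    push_cast
    apply Finset.sum_congr rfl
    intro x _
    by_cases hx : load B μ x < ε
    · rw [if_pos hx, if_neg (not_not.2 hx)]
    · rw [if_neg hx, if_pos hx]
  rw [hG] at hw
  refine le_trans (le_of_eq ?_) hw
  apply Finset.sum_congr rfl
  intro j _
  have hσ : ∑ i, μ i * z j i = μ j + ∑ x ∈ A j, if load B μ x < ε then load B μ x else 0 := by
    have h1 : ∀ i, μ i * z j i = (if i = j then μ i else 0) +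
        ∑ x ∈ (A j).filter (fun x => load B μ x < ε), μ i * t x i := by
      intro i
      have h2 := hsplit j i
      rw [← Finset.mul_sum]
      by_cases hij : i = j
      · rw [if_pos hij] at h2 ⊢
        have h3 : z j i = 1 := by rw [hij]; exact hzd j
        obtain ⟨k1, hk1⟩ := hnn ((A j).filter (fun x => load B μ x < ε)) i
        obtain ⟨k2, hk2⟩ := hnn (D j) i
        rw [hk1, hk2] at h2
        have h4 : ((k1 + k2 : ℕ) : ℝ) = 0 := by push_cast; exact h2
        have h5 : k1 + k2 = 0 := by exact_mod_cast h4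
        have h6 : k1 = 0 := by omega
        rw [h3, hk1, h6]; simp
      · rw [if_neg hij] at h2 ⊢
        simp only [z]
        rw [zero_add]
        congr 1
        linarith
    rw [Finset.sum_congr rfl (fun i _ => h1 i), Finset.sum_add_distrib, Finset.sum_comm,
      Finset.sum_filter]
    congr 1
    · simp
    · apply Finset.sum_congr rfl
      intro x _
      by_cases hx : load B μ x < ε
      · rw [if_pos hx, if_pos hx]
        simp [t, load]
      · rw [if_neg hx, if_neg hx]
  rw [hσ, mul_one_div]

end Pool.Agent.GBD
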