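import Pool.Agent.GBD.Core

set_option autoImplicit false

namespace Pool.Agent.GBD

open Finset

variable {ι α : Type} [Fintype ι] [DecidableEq ι] [DecidableEq α]

lemma total (A B : ι → Finset α) (h : OneCross A B) (μ : ι → ℝ) (hμ1 : ∑ i, μ i = 1) (j : ι) :
    μ j + ∑ x ∈ A j, load B μ x = 1 := by
  have h1 : ∑ x ∈ A j, load B μ x = ∑ i, if i = j then 0 else μ i := by
    unfold load
    rw [Finset.sum_comm]
    apply Finset.sum_congr rfl
    intro i _
    have h2 := sum_mem A B h j i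
    have h3 : ∑ x ∈ A j, (if x ∈ B i then μ i else 0)
        = μ i * ∑ x ∈ A j, (if x ∈ B i then (1 : ℝ) else 0) := by
      rw [Finset.mul_sum]
      apply Finset.sum_congr rfl
      intro x _
      split_ifs <;> simp
    rw [h3, h2]
    split_ifs <;> simp
  rw [h1, ← hμ1, ← Finset.add_sum_erase Finset.univ μ (Finset.mem_univ j)]
  congr 1
  rw [← Finset.add_sum_erase Finset.univ _ (Finset.mem_univ j), if_pos rfl, zero_add]
  apply Finset.sum_congr rfl
  intro i hi
  rw [if_neg (Finset.ne_of_mem_erase hi)]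

lemma total_load (B : ι → Finset α) (μ : ι → ℝ) (Ω : Finset α) (hΩ : ∀ i, B i ⊆ Ω) :
    ∑ x ∈ Ω, load B μ x = ∑ i, μ i * (B i).card := by
  unfold load
  rw [Finset.sum_comm]
  apply Finset.sum_congr rfl
  intro i _
  rw [← Finset.sum_filter, Finset.sum_const, nsmul_eq_mul, mul_comm]
  congr 2
  rw [Finset.filter_mem_eq_inter, Finset.inter_eq_right.2 (hΩ i)]

/-- The entropy inequality. -/
theorem entropy_le (A B : ι → Finset α) (h : OneCross A B) (c e : ℝ) (he : 0 ≤ e)
    (hce : ∀ y : ℝ, 0 ≤ y → Real.log (1 + y) ≤ c + e * (y ^ 2 / (1 + y)))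
    (μ : ι → ℝ) (hμ : ∀ i, 0 < μ i) (hμ1 : ∑ i, μ i = 1) :
    ∑ i, μ i * Real.log (1 / μ i) ≤ ∑ i, μ i * (c * (A i).card + e * (B i).card) := by
  classical
  let Ω : Finset α := Finset.univ.biUnion (fun i => A i ∪ B i)
  have hΩA : ∀ i, A i ⊆ Ω := fun i x hx =>
    Finset.mem_biUnion.2 ⟨i, Finset.mem_univ _, Finset.mem_union_left _ hx⟩
  have hΩB : ∀ i, B i ⊆ Ω := fun i x hx =>
    Finset.mem_biUnion.2 ⟨i, Finset.mem_univ _, Finset.mem_union_right _ hx⟩
  have hq := load_nonneg B μ hμ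
  have hone : ∀ j, ∃ d : α → ℝ,
      (∀ ε : ℝ, 1 / (μ j + ∑ x ∈ A j, if load B μ x < ε then load B μ x else 0)
        = 1 + ∑ x ∈ A j, if load B μ x < ε then 0 else d x) ∧
      Real.log (1 / μ j) ≤ c * (A j).card + e * ∑ x ∈ A j, d x * load B μ x := by
    intro j
    obtain ⟨d, hd1, hd2⟩ := one_index (load B μ) hq c e hce (μ j) (hμ j) (A j)
    rw [total A B h μ hμ1 j] at hd1 hd2
    refine ⟨d, fun ε => ?_, hd2⟩
    rw [hd1 ε, div_one]
  choose d hd1 hd2 using hone
  have hAΩ : ∀ (f : α → ℝ) (j : ι), ∑ x ∈ A j, f x = ∑ x ∈ Ω, if x ∈ A j then f x else 0 := by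
    intro f j
    rw [← Finset.sum_filter, Finset.filter_mem_eq_inter, Finset.inter_eq_right.2 (hΩA j)]
  let C : α → ℝ := fun x => (∑ j, μ j * (if x ∈ A j then d j x else 0)) - 1
  have hC : ∀ ε : ℝ, 0 < ε → ∑ x ∈ Ω, (if load B μ x < ε then 0 else C x) ≤ 0 := by
    intro ε _
    have h1 := layer_rank A B h μ hμ Ω hΩA ε
    have h2 : ∑ j, μ j * (1 / (μ j + ∑ x ∈ A j, if load B μ x < ε then load B μ x else 0))
        = 1 + ∑ x ∈ Ω, if load B μ x < ε then 0 else
            ∑ j, μ j * (if x ∈ A j then d j x else 0) := by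
      have h3 : ∀ j, μ j * (1 / (μ j + ∑ x ∈ A j, if load B μ x < ε then load B μ x else 0))
          = μ j + ∑ x ∈ Ω, if load B μ x < ε then 0 else
            μ j * (if x ∈ A j then d j x else 0) := by
        intro j
        rw [hd1 j ε, mul_add, mul_one, hAΩ, Finset.mul_sum]
        congr 1
        apply Finset.sum_congr rfl
        intro x _
        split_ifs <;> simp
      rw [Finset.sum_congr rfl (fun j _ => h3 j), Finset.sum_add_distrib, hμ1, Finset.sum_comm]
      congr 1
      apply Finset.sum_congr rfl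
      intro x _
      split_ifs <;> simp
    rw [h2] at h1
    have h4 : ∑ x ∈ Ω, (if load B μ x < ε then 0 else C x)
        = (∑ x ∈ Ω, if load B μ x < ε then 0 else ∑ j, μ j * (if x ∈ A j then d j x else 0))
          - ∑ x ∈ Ω, if load B μ x < ε then (0 : ℝ) else 1 := by
      rw [← Finset.sum_sub_distrib]
      apply Finset.sum_congr rfl
      intro x _
      split_ifs <;> simp [C]
    rw [h4]
    linarith
  have hl := layer C Ω.card Ω rfl (load B μ) (fun x _ => hq x) hC
  have h5 : ∑ x ∈ Ω, C x * load B μ x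
      = (∑ j, μ j * ∑ x ∈ A j, d j x * load B μ x) - ∑ i, μ i * (B i).card := by
    rw [← total_load B μ Ω hΩB]
    have h6 : ∀ j, μ j * ∑ x ∈ A j, d j x * load B μ x
        = ∑ x ∈ Ω, (μ j * (if x ∈ A j then d j x else 0)) * load B μ x := by
      intro j
      rw [hAΩ, Finset.mul_sum]
      apply Finset.sum_congr rfl
      intro x _
      split_ifs <;> ring
    rw [Finset.sum_congr rfl (fun j _ => h6 j), Finset.sum_comm, ← Finset.sum_sub_distrib]
    apply Finset.sum_congr rfl
    intro x _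
    simp only [C]
    rw [sub_mul, one_mul, Finset.sum_mul]
  rw [h5] at hl
  calc ∑ i, μ i * Real.log (1 / μ i)
      ≤ ∑ i, μ i * (c * (A i).card + e * ∑ x ∈ A i, d i x * load B μ x) :=
        Finset.sum_le_sum fun i _ => mul_le_mul_of_nonneg_left (hd2 i) (hμ i).le
    _ = ∑ i, μ i * (c * (A i).card) + e * ∑ i, μ i * ∑ x ∈ A i, d i x * load B μ x := by
        rw [Finset.mul_sum, ← Finset.sum_add_distrib]
        apply Finset.sum_congr rfl
        intro i _
        ring
    _ ≤ ∑ i, μ i * (c * (A i).card) + e * ∑ i, μ i * (B i).card := by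
        have := mul_le_mul_of_nonneg_left (sub_nonpos.1 hl) he
        linarith
    _ = ∑ i, μ i * (c * (A i).card + e * (B i).card) := by
        rw [Finset.mul_sum, ← Finset.sum_add_distrib]
        apply Finset.sum_congr rfl
        intro i _
        ring

/-- The LYM type inequality. -/
theorem lym (A B : ι → Finset α) (h : OneCross A B) (c e : ℝ) (he : 0 ≤ e)
    (hce : ∀ y : ℝ, 0 ≤ y → Real.log (1 + y) ≤ c + e * (y ^ 2 / (1 + y))) :
    ∑ i, Real.exp (-(c * (A i).card + e * (B i).card)) ≤ 1 := by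
  rcases isEmpty_or_nonempty ι with hι | hι
  · simp
  set w : ι → ℝ := fun i => c * (A i).card + e * (B i).card with hw
  set Z := ∑ i, Real.exp (-(w i)) with hZ
  have hZ0 : 0 < Z := Finset.sum_pos (fun i _ => Real.exp_pos _) Finset.univ_nonempty
  have hμ : ∀ i, 0 < Real.exp (-(w i)) / Z := fun i => by positivity
  have hμ1 : ∑ i, Real.exp (-(w i)) / Z = 1 := by
    rw [← Finset.sum_div, ← hZ, div_self hZ0.ne']
  have h1 := entropy_le A B h c e he hce _ hμ hμ1
  have h2 : ∀ i, Real.exp (-(w i)) / Z * Real.log (1 / (Real.exp (-(w i)) / Z))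
      = Real.exp (-(w i)) / Z * Real.log Z + Real.exp (-(w i)) / Z * w i := by
    intro i
    rw [one_div_div, Real.log_div hZ0.ne' (Real.exp_pos _).ne', Real.log_exp]
    ring
  rw [Finset.sum_congr rfl (fun i _ => h2 i), Finset.sum_add_distrib, ← Finset.sum_mul, hμ1,
    one_mul] at h1
  have h3 : Real.log Z ≤ 0 := by
    simp only [hw] at h1 ⊢
    linarith
  exact (Real.log_nonpos_iff hZ0.le).1 h3

end Pool.Agent.GBD
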