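import Mathlib

set_option autoImplicit false

namespace Pool.Agent.GBD

open Finset

/-- If the vectors `w j` lie in the subspace `W` then `∑ (w j)_j² / ‖w j‖² ≤ dim W`. -/
lemma rank_bound {ι : Type} [Fintype ι] [DecidableEq ι]
    (W : Submodule ℝ (EuclideanSpace ℝ ι)) (w : ι → EuclideanSpace ℝ ι) (hw : ∀ j, w j ∈ W) :
    ∑ j, (w j j) ^ 2 / ‖w j‖ ^ 2 ≤ (Module.finrank ℝ W : ℝ) := by
  classical
  let b := stdOrthonormalBasis ℝ W
  have h1 : ∀ j, (w j j) ^ 2 / ‖w j‖ ^ 2 ≤ ∑ k, ((b k : EuclideanSpace ℝ ι) j) ^ 2 := by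
    intro j
    rcases eq_or_ne (w j) 0 with h0 | h0
    · rw [h0]
      simp only [PiLp.zero_apply, norm_zero, ne_eq, OfNat.ofNat_ne_zero, not_false_eq_true,
        zero_pow, div_zero]
      exact Finset.sum_nonneg fun k _ => sq_nonneg _
    have hpos : 0 < ‖w j‖ ^ 2 := by positivity
    rw [div_le_iff₀ hpos]
    let v : W := ⟨w j, hw j⟩
    have hv : ∑ k, b.repr v k • b k = v := b.sum_repr v
    have hvj : w j j = ∑ k, b.repr v k * (b k : EuclideanSpace ℝ ι) j := by
      have h2 : (v : EuclideanSpace ℝ ι) = ∑ k, b.repr v k • (b k : EuclideanSpace ℝ ι) := by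
        conv_lhs => rw [← hv]
        simp
      have h3 : w j = ∑ k, b.repr v k • (b k : EuclideanSpace ℝ ι) := h2
      have h4 := congrArg (fun u : EuclideanSpace ℝ ι => u j) h3
      simpa using h4
    have hn : ∑ k, (b.repr v k) ^ 2 = ‖w j‖ ^ 2 := by
      have h5 : ‖b.repr v‖ ^ 2 = ‖v‖ ^ 2 := by rw [LinearIsometryEquiv.norm_map]
      rw [EuclideanSpace.norm_sq_eq] at h5
      simp only [Real.norm_eq_abs, sq_abs] at h5
      rw [h5]
      rfl
    rw [hvj]
    calc (∑ k, b.repr v k * (b k : EuclideanSpace ℝ ι) j) ^ 2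
        ≤ (∑ k, (b.repr v k) ^ 2) * ∑ k, ((b k : EuclideanSpace ℝ ι) j) ^ 2 :=
          Finset.sum_mul_sq_le_sq_mul_sq _ _ _
      _ = (∑ k, ((b k : EuclideanSpace ℝ ι) j) ^ 2) * ‖w j‖ ^ 2 := by rw [hn, mul_comm]
  calc ∑ j, (w j j) ^ 2 / ‖w j‖ ^ 2 ≤ ∑ j, ∑ k, ((b k : EuclideanSpace ℝ ι) j) ^ 2 :=
        Finset.sum_le_sum fun j _ => h1 j
    _ = ∑ k, ∑ j, ((b k : EuclideanSpace ℝ ι) j) ^ 2 := Finset.sum_comm
    _ = ∑ k, ‖(b k : EuclideanSpace ℝ ι)‖ ^ 2 := by
        apply Finset.sum_congr rfl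
        intro k _
        rw [EuclideanSpace.norm_sq_eq]
        simp only [Real.norm_eq_abs, sq_abs]
    _ = ∑ k : Fin (Module.finrank ℝ W), (1 : ℝ) := by
        apply Finset.sum_congr rfl
        intro k _
        have : ‖(b k : EuclideanSpace ℝ ι)‖ = 1 := b.orthonormal.1 k
        rw [this]; norm_num
    _ = (Module.finrank ℝ W : ℝ) := by simp

/-- The weighted rank inequality: `T x` is the set of indices whose `B` contains `x`; `E j` is a set
of indices containing `j` with `1_{E j} = 1 - ∑_{x ∈ D j} 1_{T x}`, where `D j ⊆ G`. -/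
lemma weighted {ι α : Type} [Fintype ι] [DecidableEq ι] [DecidableEq α] (μ : ι → ℝ)
    (hμ : ∀ i, 0 < μ i) (G : Finset α) (t : α → ι → ℝ) (D : ι → Finset α) (hD : ∀ j, D j ⊆ G)
    (z : ι → ι → ℝ) (hz : ∀ j i, z j i = 1 - ∑ x ∈ D j, t x i) (hz01 : ∀ j i, z j i = 0 ∨ z j i = 1)
    (hzd : ∀ j, z j j = 1) :
    ∑ j, μ j / (∑ i, μ i * z j i) ≤ 1 + (G.card : ℝ) := by
  classical
  let one : EuclideanSpace ℝ ι := WithLp.toLp 2 fun i => Real.sqrt (μ i)
  let u : α → EuclideanSpace ℝ ι := fun x => WithLp.toLp 2 fun i => Real.sqrt (μ i) * t x i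
  let S : Finset (EuclideanSpace ℝ ι) := insert one (G.image u)
  let W := Submodule.span ℝ (S : Set (EuclideanSpace ℝ ι))
  let w : ι → EuclideanSpace ℝ ι := fun j => WithLp.toLp 2 fun i => Real.sqrt (μ i) * z j i
  have hw : ∀ j, w j ∈ W := by
    intro j
    have h1 : w j = one - ∑ x ∈ D j, u x := by
      ext i
      simp only [w, one, u, PiLp.sub_apply, hz j i]
      have : (∑ x ∈ D j, (WithLp.toLp 2 fun i => Real.sqrt (μ i) * t x i : EuclideanSpace ℝ ι)) i
          = ∑ x ∈ D j, Real.sqrt (μ i) * t x i := by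
        simp
      rw [this, mul_sub, mul_one, Finset.mul_sum]
    rw [h1]
    apply Submodule.sub_mem
    · apply Submodule.subset_span
      simp [S]
    · apply Submodule.sum_mem
      intro x hx
      apply Submodule.subset_span
      simp only [S, Finset.coe_insert, Finset.coe_image]
      right
      exact ⟨x, hD j hx, rfl⟩
  have hb := rank_bound W w hw
  have hdim : (Module.finrank ℝ W : ℝ) ≤ 1 + (G.card : ℝ) := by
    have h1 : Module.finrank ℝ W ≤ S.card := finrank_span_finset_le_card S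
    have h2 : S.card ≤ G.card + 1 :=
      (Finset.card_insert_le _ _).trans (Nat.add_le_add_right Finset.card_image_le 1)
    have h3 : Module.finrank ℝ W ≤ G.card + 1 := h1.trans h2
    have h4 : (Module.finrank ℝ W : ℝ) ≤ ((G.card + 1 : ℕ) : ℝ) := by exact_mod_cast h3
    push_cast at h4
    linarith
  refine le_trans (le_of_eq ?_) (hb.trans hdim)
  apply Finset.sum_congr rfl
  intro j _
  have h1 : (w j j) ^ 2 = μ j := by
    simp only [w, hzd j, mul_one]
    exact Real.sq_sqrt (hμ j).le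
  have h2 : ‖w j‖ ^ 2 = ∑ i, μ i * z j i := by
    rw [EuclideanSpace.norm_sq_eq]
    apply Finset.sum_congr rfl
    intro i _
    simp only [w, Real.norm_eq_abs, sq_abs, mul_pow, Real.sq_sqrt (hμ i).le]
    rcases hz01 j i with h | h <;> simp [h]
  rw [h1, h2]

end Pool.Agent.GBD
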